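import Pool.Agent.Y566.GQ.Ex1

/-!
# Quasiminimality of the complex numbers with unguarded generic quantifiers

The starting result `FiniteOrderGuards` treats the sets which are definable from zero sets of entire
functions by countable Boolean combinations, preimages under entire maps, and quantifiers over the
zeros `x` of an equation `F(s, x) = 0` of finite order in `x`; the matrix `X(s, x)` is arbitrary, but
the quantifier is guarded by the equation. The starting result `OneEquationQuantifiers` has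
quantifiers whose matrix is a combination of equations of restricted form.

Here we add UNGUARDED quantifiers with an arbitrary matrix `X(s, x)`: for uncountably many `x` (or: for
at least `κ` numbers `x`, `κ` any uncountable cardinal), and the measure quantifiers `μ {x | X(s, x)} > r`
for every s-finite Borel measure `μ` on the complex numbers. So the sets include those which are
definable in the exponential field by formulas of the logic `L_{ω₁, ω}(Q)`, with parameters, whose
first-order quantifiers are guarded and whose quantifiers `Q` (for uncountably many) are arbitrary.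

All sets of the least family are Borel sets, and their traces on analytic curves are countable or
cocountable.

Proof. Under the continuum hypothesis the curve condition alone is not preserved by the generic
quantifier. We prove both conditions together. Counting zeros preserves Borel sets, because the
zeros of `F(s, ·)` can be enumerated by countably many Borel functions of `s`
(`Pool.Agent.Y566.GQ.enum`). If `X` is Borel and satisfies the curve condition, then all sections of
`X` are countable or cocountable, so `Q x X(s, x)` says that the section has positive Lebesgue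
measure, a Borel condition. If both this condition and its negation had uncountably many solutions `t`
on an analytic curve, then there would be atomless measures on the two sets of solutions, and
Fubini's theorem would give a number `x` for which the trace of `X` on the curve `(γ(t), x)` is neither
countable nor cocountable (`Pool.Agent.Y566.GQ.CQ_unc`).
-/

set_option autoImplicit false

namespace Pool.Agent.Results.MP_a12702_lc.GenericQuantifiers

open Set Cardinal MeasureTheory Pool.Agent.TH735.QM Pool.Agent.TH735.FO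
open scoped ENNReal

/-- Closure conditions on families `𝒟 m` of subsets of `ℂ^m`. -/
structure Closed (𝒟 : (m : ℕ) → Set (Set (Fin m → ℂ))) : Prop where
  /-- zero sets of arbitrary entire functions -/
  zero : ∀ (m : ℕ) (f : (Fin m → ℂ) → ℂ), AnalyticOnNhd ℂ f univ → {s | f s = 0} ∈ 𝒟 m
  /-- complements -/
  compl : ∀ (m : ℕ) (X : Set (Fin m → ℂ)), X ∈ 𝒟 m → Xᶜ ∈ 𝒟 m
  /-- countable unions -/
  iUnion : ∀ (m : ℕ) (X : ℕ → Set (Fin m → ℂ)), (∀ i, X i ∈ 𝒟 m) → (⋃ i, X i) ∈ 𝒟 m
  /-- preimages under entire maps -/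
  preimage : ∀ (m n : ℕ) (h : (Fin n → ℂ) → (Fin m → ℂ)), AnalyticOnNhd ℂ h univ →
    ∀ X ∈ 𝒟 m, h ⁻¹' X ∈ 𝒟 n
  /-- the guarded quantifier: there are at least `κ` numbers `x` such that ..., where the matrix is
  arbitrary at the zeros `x` of `F(s, ·)` (`F` entire, of finite order in `x` locally uniformly in
  `s`), and is a countable Boolean combination of conditions `s ∈ E` and `x ∈ D` at the other `x` -/
  guard : ∀ (m : ℕ) (F : (Fin m → ℂ) → ℂ → ℂ),
    AnalyticOnNhd ℂ (fun p : (Fin m → ℂ) × ℂ => F p.1 p.2) univ → FiniteOrder F →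
    ∀ X ∈ 𝒟 (m + 1), ∀ R : Set ((Fin m → ℂ) × (Fin 1 → ℂ)),
      Rect (· ∈ 𝒟 m) (· ∈ 𝒟 1) R → ∀ κ : Cardinal.{0},
    {s | κ ≤ #({x : ℂ | (IsZero F s x ∧
      (Fin.snoc (α := fun _ => ℂ) s x : Fin (m + 1) → ℂ) ∈ X) ∨
      (¬ IsZero F s x ∧ (s, fun _ => x) ∈ R)} : Set ℂ)} ∈ 𝒟 m
  /-- counting quantifiers over one unknown `z`: at the points algebraic over `s` the matrix is
  arbitrary, elsewhere it consists of one admissible equation and a countable Boolean combination
  (different on the two sides of the equation) of conditions `s ∈ E` and `z ∈ D` -/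
  count : ∀ (m d : ℕ) (a : Fin (d + 1) → (Fin m → ℂ) → ℂ),
    (∀ j, AnalyticOnNhd ℂ (a j) univ) → ∀ X ∈ 𝒟 (m + 1),
    ∀ F : (Fin m → ℂ) → (Fin 1 → ℂ) → ℂ, Adm m 1 F →
    ∀ R₁ R₀ : Set ((Fin m → ℂ) × (Fin 1 → ℂ)), Rect (· ∈ 𝒟 m) (· ∈ 𝒟 1) R₁ →
      Rect (· ∈ 𝒟 m) (· ∈ 𝒟 1) R₀ → ∀ κ : Cardinal.{0},
    {s | κ ≤ #({z : ℂ | (IsAlg a s z ∧
      (Fin.snoc (α := fun _ => ℂ) s z : Fin (m + 1) → ℂ) ∈ X) ∨
      (¬ IsAlg a s z ∧ ((F s (fun _ => z) = 0 ∧ (s, fun _ => z) ∈ R₁) ∨
        (F s (fun _ => z) ≠ 0 ∧ (s, fun _ => z) ∈ R₀)))} : Set ℂ)} ∈ 𝒟 m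
  /-- the same with an arbitrary Boolean combination of finitely many equations which are
  polynomial in `z` and in the exponential of one entire function `h(s, z)` -/
  system : ∀ (m d e n : ℕ) (a : Fin (d + 1) → (Fin m → ℂ) → ℂ),
    (∀ j, AnalyticOnNhd ℂ (a j) univ) → ∀ X ∈ 𝒟 (m + 1),
    ∀ c : Fin n → Fin (e + 1) → Fin (e + 1) → (Fin m → ℂ) → ℂ,
    (∀ j i k, AnalyticOnNhd ℂ (c j i k) univ) → ∀ h : (Fin m → ℂ) → ℂ → ℂ,
    AnalyticOnNhd ℂ (fun p : (Fin m → ℂ) × ℂ => h p.1 p.2) univ →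
    ∀ R : Set (Fin n) → Set ((Fin m → ℂ) × (Fin 1 → ℂ)),
      (∀ Z, Rect (· ∈ 𝒟 m) (· ∈ 𝒟 1) (R Z)) → ∀ κ : Cardinal.{0},
    {s | κ ≤ #({z : ℂ | (IsAlg a s z ∧
      (Fin.snoc (α := fun _ => ℂ) s z : Fin (m + 1) → ℂ) ∈ X) ∨
      (¬ IsAlg a s z ∧ (s, fun _ => z) ∈
        R {j | ∑ i, ∑ k, c j i k s * z ^ (i : ℕ) * Complex.exp (h s z) ^ (k : ℕ) = 0})} :
        Set ℂ)} ∈ 𝒟 m
  /-- one admissible equation in `n` unknowns -/
  ex : ∀ (m n : ℕ) (F : (Fin m → ℂ) → (Fin n → ℂ) → ℂ), Adm m n F →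
    ∀ N : (Fin n → ℂ) → ℂ, AnalyticOnNhd ℂ N univ → {s | ∃ x, N x ≠ 0 ∧ F s x = 0} ∈ 𝒟 m
  /-- the unguarded quantifier: there are at least `κ` numbers `x` with `X(s, x)`, for an
  uncountable cardinal `κ` and an arbitrary set `X` of the family -/
  generic : ∀ (m : ℕ), ∀ X ∈ 𝒟 (m + 1), ∀ κ : Cardinal.{0}, ℵ₀ < κ →
    {s | κ ≤ #({x : ℂ | (Fin.snoc (α := fun _ => ℂ) s x : Fin (m + 1) → ℂ) ∈ X} : Set ℂ)} ∈ 𝒟 m
  /-- the unguarded measure quantifier: the measure of the set of all `x` with `X(s, x)` is larger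
  than `r`, for an arbitrary set `X` of the family -/
  measure : ∀ (m : ℕ), ∀ X ∈ 𝒟 (m + 1), ∀ (μ : Measure ℂ) [SFinite μ] (r : ℝ≥0∞),
    {s | r < μ {x : ℂ | (Fin.snoc (α := fun _ => ℂ) s x : Fin (m + 1) → ℂ) ∈ X}} ∈ 𝒟 m

theorem closed_CQ : Closed (fun m => {X | CQ m X ∧ MeasurableSet X}) where
  zero := fun _ _ hf => ⟨CQ.zero hf,
    (isClosed_eq (continuousOn_univ.1 hf.continuousOn) continuous_const).measurableSet⟩
  compl := fun _ _ hX => ⟨CQ.compl hX.1, hX.2.compl⟩
  iUnion := fun _ _ hX => ⟨CQ.iUnion fun i => (hX i).1, MeasurableSet.iUnion fun i => (hX i).2⟩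
  preimage := fun _ _ _ hh _ hX => ⟨CQ.preimage hX.1 hh,
    (continuousOn_univ.1 hh.continuousOn).measurable hX.2⟩
  guard := by
    intro m F hF hord X hX R hR κ
    exact ⟨CQ.guard hF hord hX.1 (fun E hE => hE.1) (fun D hD => hD.1) hR κ,
      Pool.Agent.Y566.GQ.meas_guard hF hX.2 (fun E hE => hE.2) (fun D hD => hD) hR κ⟩
  count := by
    intro m d a ha X hX F hF R₁ R₀ hR₁ hR₀ κ
    exact ⟨CQ.count_one ha hX.1 hF (fun E hE => hE.1) (fun D hD => hD.1) hR₀ hR₁ κ,
      Pool.Agent.Y566.GQ.meas_count_one ha hX.2 hF (fun E hE => hE.2) (fun D hD => hD) hR₀ hR₁ κ⟩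
  system := by
    intro m d e n a ha X hX c hc h hh R hR κ
    exact ⟨CQ.count_system ha hX.1 hc hh (fun E hE => hE.1) (fun D hD => hD.1) hR κ,
      Pool.Agent.Y566.GQ.meas_system ha hX.2 hc hh (fun E hE => hE.2) (fun D hD => hD) hR κ⟩
  ex := fun _ _ _ hF _ hN => ⟨Pool.Agent.Y566.GQ.CQ_ex hF hN, Pool.Agent.Y566.GQ.meas_ex hF hN⟩
  generic := fun _ _ hX _ hκ => Pool.Agent.Y566.GQ.CQ_card hX.1 hX.2 hκ
  measure := fun _ _ hX μ _ r => ⟨Pool.Agent.Y566.GQ.CQ_measure hX.1 hX.2 μ r,
    Pool.Agent.Y566.GQ.meas_measure hX.2 μ r⟩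

/-- The sets in the least closed family are Borel sets with countable or cocountable traces on all
analytic curves; in particular every set of complex numbers in the least closed family is countable
or cocountable. -/
theorem result :
    (∀ (m : ℕ) (X : Set (Fin m → ℂ)),
      (∀ 𝒟 : (m : ℕ) → Set (Set (Fin m → ℂ)), Closed 𝒟 → X ∈ 𝒟 m) →
      MeasurableSet X ∧ ∀ U : Set ℂ, IsOpen U → IsPreconnected U →
        ∀ γ : ℂ → (Fin m → ℂ), AnalyticOnNhd ℂ γ U →
          {t | t ∈ U ∧ γ t ∈ X}.Countable ∨ {t | t ∈ U ∧ γ t ∉ X}.Countable) ∧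
    ∀ X : Set ℂ,
      (∀ 𝒟 : (m : ℕ) → Set (Set (Fin m → ℂ)), Closed 𝒟 → {v : Fin 1 → ℂ | v 0 ∈ X} ∈ 𝒟 1) →
      X.Countable ∨ Xᶜ.Countable := by
  refine ⟨?_, ?_⟩
  · intro m X hX
    have h1 : CQ m X ∧ MeasurableSet X := hX _ closed_CQ
    exact ⟨h1.2, h1.1⟩
  · intro X hX
    have h1 : CQ 1 {v : Fin 1 → ℂ | v 0 ∈ X} ∧ MeasurableSet {v : Fin 1 → ℂ | v 0 ∈ X} :=
      hX _ closed_CQ
    exact h1.1.qm

end Pool.Agent.Results.MP_a12702_lc.GenericQuantifiers
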